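import Mathlib

namespace Pool.Agent.Results.MP_aa1485_co.Equal

open Finset

variable {V : Type}

inductive Blue (G : SimpleGraph V) (S : Finset V) : V → Prop
  | start (v : V) : v ∈ S → Blue G S v
  | force (u w : V) : G.Adj u w → (∀ x, G.Adj u x → x ≠ w → Blue G S x) → Blue G S w

def Forcing (G : SimpleGraph V) (S : Finset V) : Prop := ∀ v, Blue G S v

def Fort (G : SimpleGraph V) (F : Finset V) : Prop :=
  F.Nonempty ∧ ∀ v, (G.neighborSet v ∩ F).ncard ≠ 1

def Ir (G : SimpleGraph V) (S : Finset V) : Prop :=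
  ∀ u ∈ S, ∃ F : Finset V, Fort G F ∧ (F : Set V) ∩ S = {u}

noncomputable def zMin (G : SimpleGraph V) : ℕ := sInf {k | ∃ S, Forcing G S ∧ S.card = k}

noncomputable def zUpper (G : SimpleGraph V) : ℕ :=
  sSup {k | ∃ S, Minimal (Forcing G) S ∧ S.card = k}

noncomputable def zir (G : SimpleGraph V) : ℕ := sInf {k | ∃ S, Maximal (Ir G) S ∧ S.card = k}

noncomputable def zIR (G : SimpleGraph V) : ℕ := sSup {k | ∃ S, Maximal (Ir G) S ∧ S.card = k}

variable [Fintype V] (G : SimpleGraph V)

open Classical in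
noncomputable def row (v : V) : (V → ℚ) →ₗ[ℚ] ℚ :=
  ∑ w ∈ univ.filter (G.Adj v), LinearMap.proj w

open Classical in
lemma row_apply (v : V) (x : V → ℚ) : row G v x = ∑ w ∈ univ.filter (G.Adj v), x w := by
  simp [row]

noncomputable def null : Submodule ℚ (V → ℚ) := ⨅ v, LinearMap.ker (row G v)

lemma mem_null (x : V → ℚ) : x ∈ null G ↔ ∀ v, row G v x = 0 := by
  simp [null]

lemma other (x : V → ℚ) (v w : V) (h : row G v x = 0) (a : G.Adj v w) (hw : x w ≠ 0) :
    ∃ y, G.Adj v y ∧ y ≠ w ∧ x y ≠ 0 := by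
  classical
  by_contra hn
  push Not at hn
  rw [row_apply, sum_eq_single w (fun y hy e => hn y (mem_filter.mp hy).2 e)
    (fun e => absurd (mem_filter.mpr ⟨mem_univ _, a⟩) e)] at h
  exact hw h

omit [Fintype V] in
lemma fort_iff (F : Finset V) : Fort G F ↔
    F.Nonempty ∧ ∀ v w, G.Adj v w → w ∈ F → ∃ y, G.Adj v y ∧ y ≠ w ∧ y ∈ F := by
  refine and_congr_right fun _ => forall_congr' fun v => ?_
  rw [Ne, Set.ncard_eq_one]
  constructor
  · intro h w a hw
    by_contra hn
    push Not at hn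
    refine h ⟨w, Set.eq_singleton_iff_unique_mem.mpr ⟨⟨a, hw⟩, fun y hy => ?_⟩⟩
    by_contra e
    exact hn y hy.1 e hy.2
  · rintro h ⟨w, hw⟩
    obtain ⟨a, b⟩ := Set.eq_singleton_iff_unique_mem.mp hw
    obtain ⟨y, c, d, e⟩ := h w a.1 a.2
    exact d (b y ⟨c, e⟩)

lemma vec (hG : G.IsAcyclic) (F : Finset V) (hF : Fort G F) (u : V) (hu : u ∈ F) :
    ∃ x ∈ null G, x u ≠ 0 ∧ ∀ w, w ∉ F → x w = 0 := by
  classical
  by_contra hn
  push Not at hn
  let L : V ⊕ V → (V → ℚ) →ₗ[ℚ] ℚ :=
    Sum.elim (row G) fun w => if w ∈ F then 0 else LinearMap.proj w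
  have h1 : ⨅ i, LinearMap.ker (L i) ≤ LinearMap.ker (LinearMap.proj (R := ℚ) u) := by
    intro x hx
    simp only [Submodule.mem_iInf, LinearMap.mem_ker] at hx
    by_contra hxu
    obtain ⟨w, a, b⟩ := hn x ((mem_null G x).mpr fun v => hx (Sum.inl v)) hxu
    have := hx (Sum.inr w)
    simp only [L, Sum.elim_inr, if_neg a] at this
    exact b this
  obtain ⟨c, hc⟩ := (Submodule.mem_span_range_iff_exists_fun ℚ).mp
    (mem_span_of_iInf_ker_le_ker h1)
  have h2 : ∀ w ∈ F, row G w (fun v => c (Sum.inl v)) = if u = w then 1 else 0 := by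
    intro w hw
    have := LinearMap.congr_fun hc (Pi.single w 1)
    simp only [LinearMap.sum_apply, Fintype.sum_sum_type, LinearMap.add_apply,
      LinearMap.smul_apply, L, Sum.elim_inl, Sum.elim_inr, LinearMap.proj_apply,
      Pi.single_apply] at this
    rw [← this, row_apply, sum_filter]
    have z : ∑ y, c (Sum.inr y) • (if y ∈ F then (0 : (V → ℚ) →ₗ[ℚ] ℚ) else LinearMap.proj y)
        (Pi.single w 1) = 0 := by
      apply sum_eq_zero
      intro y _
      by_cases hy : y ∈ F
      · simp [hy]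
      · have : y ≠ w := fun e => hy (e ▸ hw)
        simp [hy, this]
    rw [z, add_zero]
    apply sum_congr rfl
    intro v _
    rw [row_apply]
    simp [Pi.single_apply, G.adj_comm]
  have hf := ((fort_iff G F).mp hF).2
  have key : ∀ k : ℕ, ∃ w ∈ F, ∃ p : G.Walk w u, p.IsPath ∧ k ≤ p.length ∧
      (w ≠ u → G.Adj w p.snd ∧ c (Sum.inl p.snd) ≠ 0) := by
    intro k
    induction k with
    | zero => exact ⟨u, hu, SimpleGraph.Walk.nil, by simp, le_rfl, fun h => absurd rfl h⟩
    | succ k ih =>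
      obtain ⟨w, hw, p, hp, hk, hs⟩ := ih
      obtain ⟨v, a, b, d⟩ : ∃ v, G.Adj w v ∧ v ∉ p.support ∧ c (Sum.inl v) ≠ 0 := by
        by_cases e : w = u
        · subst e
          have h3 := h2 w hw
          rw [if_pos rfl, row_apply] at h3
          obtain ⟨v, hv, hv'⟩ := exists_ne_zero_of_sum_ne_zero (h3.trans_ne one_ne_zero)
          have a := (mem_filter.mp hv).2
          refine ⟨v, a, ?_, hv'⟩
          rw [(SimpleGraph.Walk.isPath_iff_nil.mp hp).eq_nil]
          simpa using a.ne'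
        · have h3 := h2 w hw
          rw [if_neg (Ne.symm e)] at h3
          obtain ⟨v, a, b, d⟩ := other G _ w p.snd h3 (hs e).1 (hs e).2
          exact ⟨v, a, fun m => b (hG.eq_snd_of_adj_start hp a m), d⟩
      have hq : (p.cons a.symm).IsPath := hp.cons b
      obtain ⟨y, e, f, g⟩ := hf v w a.symm hw
      refine ⟨y, g, (p.cons a.symm).cons e.symm, hq.cons fun m => f ?_, ?_, fun _ => ?_⟩
      · simpa using hG.eq_snd_of_adj_start hq e m
      · simp only [SimpleGraph.Walk.length_cons]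
        omega
      · simpa using ⟨e.symm, d⟩
  obtain ⟨w, _, p, hp, hk, _⟩ := key (Fintype.card V)
  exact absurd hp.length_lt (not_lt.mpr hk)

def Inj (S : Finset V) : Prop := ∀ x ∈ null G, (∀ s ∈ S, x s = 0) → x = 0

def Sur (S : Finset V) : Prop := ∀ u ∈ S, ∃ x ∈ null G, x u ≠ 0 ∧ ∀ s ∈ S, s ≠ u → x s = 0

lemma forcing_iff (hG : G.IsAcyclic) (S : Finset V) : Forcing G S ↔ Inj G S := by
  classical
  constructor
  · intro h x hx hS
    funext v
    induction h v with
    | start v hv => exact hS v hv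
    | force u w a _ ih =>
      by_contra hw
      obtain ⟨y, b, c, d⟩ := other G x u w ((mem_null G x).mp hx u) a hw
      exact d (ih y b c)
  · intro h v
    by_contra hv
    have hF : Fort G (univ.filter fun w => ¬ Blue G S w) := by
      rw [fort_iff]
      refine ⟨⟨v, by simpa using hv⟩, fun a w b c => ?_⟩
      by_contra hn
      push Not at hn
      exact (mem_filter.mp c).2 (Blue.force a w b fun y d e => by simpa using hn y d e)
    obtain ⟨x, a, b, c⟩ := vec G hG _ hF v (by simpa using hv)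
    exact b (congrFun (h x a fun s hs => c s (by simpa using Blue.start s hs)) v)

lemma ir_iff (hG : G.IsAcyclic) (S : Finset V) : Ir G S ↔ Sur G S := by
  classical
  refine forall₂_congr fun u hu => ⟨?_, ?_⟩
  · rintro ⟨F, hF, e⟩
    obtain ⟨a, b⟩ := Set.eq_singleton_iff_unique_mem.mp e
    obtain ⟨x, c, d, f⟩ := vec G hG F hF u a.1
    exact ⟨x, c, d, fun s hs hne => f s fun m => hne (b s ⟨m, hs⟩)⟩
  · rintro ⟨x, a, b, c⟩
    refine ⟨univ.filter fun w => x w ≠ 0, (fort_iff G _).mpr ⟨⟨u, by simpa using b⟩, ?_⟩, ?_⟩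
    · intro v w d e
      obtain ⟨y, f, g, h⟩ := other G x v w ((mem_null G x).mp a v) d (mem_filter.mp e).2
      exact ⟨y, f, g, by simpa using h⟩
    · refine Set.eq_singleton_iff_unique_mem.mpr ⟨⟨by simpa using b, hu⟩, fun y hy => ?_⟩
      by_contra e
      exact (mem_filter.mp hy.1).2 (c y hy.2 e)

lemma card_eq (S : Finset V) (h1 : Inj G S) (h2 : Sur G S) :
    S.card = Module.finrank ℚ (null G) := by
  classical
  let r : null G →ₗ[ℚ] (S → ℚ) := (LinearMap.funLeft ℚ ℚ Subtype.val).comp (null G).subtype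
  have i : Function.Injective r := by
    rw [injective_iff_map_eq_zero]
    intro x hx
    exact Subtype.ext (h1 x x.2 fun s hs => congrFun hx ⟨s, hs⟩)
  have s : Function.Surjective r := by
    intro y
    choose x a b c using fun u : S => h2 u u.2
    refine ⟨⟨∑ u, (y u / x u u) • x u, Submodule.sum_mem _ fun u _ =>
      Submodule.smul_mem _ _ (a u)⟩, funext fun t => ?_⟩
    show (∑ u : S, (y u / x u u) • x u) t = y t
    rw [Finset.sum_apply, sum_eq_single t]
    · simp [b t]
    · intro u _ e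
      simp [c u t t.2 fun m => e (Subtype.ext m).symm]
    · simp
  rw [(LinearEquiv.ofBijective r ⟨i, s⟩).finrank_eq]
  simp

lemma min_card (hG : G.IsAcyclic) (S : Finset V) (h : Minimal (Forcing G) S) :
    S.card = Module.finrank ℚ (null G) := by
  classical
  refine card_eq G S ((forcing_iff G hG S).mp h.1) fun u hu => ?_
  have h1 : ¬ Inj G (S.erase u) := fun e =>
    notMem_erase u S (h.2 ((forcing_iff G hG _).mpr e) (erase_subset u S) hu)
  simp only [Inj, not_forall] at h1
  obtain ⟨x, a, b, c⟩ := h1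
  refine ⟨x, a, fun e => c ((forcing_iff G hG S).mp h.1 x a fun s hs => ?_),
    fun s hs e => b s (mem_erase.mpr ⟨e, hs⟩)⟩
  by_cases m : s = u
  · rw [m, e]
  · exact b s (mem_erase.mpr ⟨m, hs⟩)

lemma max_card (hG : G.IsAcyclic) (S : Finset V) (h : Maximal (Ir G) S) :
    S.card = Module.finrank ℚ (null G) := by
  classical
  have h0 := (ir_iff G hG S).mp h.1
  refine card_eq G S (fun x a b => ?_) h0
  by_contra c
  obtain ⟨u, hu⟩ := Function.ne_iff.mp c
  have hu' : x u ≠ 0 := hu
  have hS : Sur G (insert u S) := by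
    intro s hs
    rcases mem_insert.mp hs with rfl | hs
    · exact ⟨x, a, hu', fun t ht e => b t ((mem_insert.mp ht).resolve_left e)⟩
    · obtain ⟨y, d, e, f⟩ := h0 s hs
      refine ⟨y - (y u / x u) • x, Submodule.sub_mem _ d (Submodule.smul_mem _ _ a), ?_, ?_⟩
      · simpa [b s hs] using e
      · intro t ht g
        rcases mem_insert.mp ht with rfl | ht
        · simp [hu']
        · simp [b t ht, f t ht g]
  exact hu' (b u (h.2 ((ir_iff G hG _).mpr hS) (subset_insert u S) (mem_insert_self u S)))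

theorem result (V : Type) [Fintype V] (T : SimpleGraph V) (hT : T.IsAcyclic) :
    zir T = zMin T ∧ zMin T = zUpper T ∧ zUpper T = zIR T := by
  classical
  have hu : Forcing T univ := fun v => Blue.start v (mem_univ v)
  have e1 : {k | ∃ S, Maximal (Ir T) S ∧ S.card = k} = {Module.finrank ℚ (null T)} := by
    obtain ⟨S, _, hS⟩ := exists_maximal_ge_of_wellFoundedGT (Ir T) ∅ (fun u hu => by simp at hu)
    refine Set.eq_singleton_iff_unique_mem.mpr ⟨⟨S, hS, max_card T hT S hS⟩, ?_⟩
    rintro k ⟨R, hR, rfl⟩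
    exact max_card T hT R hR
  have e2 : {k | ∃ S, Minimal (Forcing T) S ∧ S.card = k} = {Module.finrank ℚ (null T)} := by
    obtain ⟨S, _, hS⟩ := exists_minimal_le_of_wellFoundedLT (Forcing T) univ hu
    refine Set.eq_singleton_iff_unique_mem.mpr ⟨⟨S, hS, min_card T hT S hS⟩, ?_⟩
    rintro k ⟨R, hR, rfl⟩
    exact min_card T hT R hR
  have e3 : zMin T = Module.finrank ℚ (null T) := by
    apply IsLeast.csInf_eq
    constructor
    · obtain ⟨S, _, hS⟩ := exists_minimal_le_of_wellFoundedLT (Forcing T) univ hu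
      exact ⟨S, hS.1, min_card T hT S hS⟩
    · rintro k ⟨R, hR, rfl⟩
      obtain ⟨S, a, hS⟩ := exists_minimal_le_of_wellFoundedLT (Forcing T) R hR
      rw [← min_card T hT S hS]
      exact card_le_card a
  rw [e3, zir, zUpper, zIR, e1, e2]
  simp

end Pool.Agent.Results.MP_aa1485_co.Equal
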